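import Pool.Agent.H27.G.R_seed8.TH612.GS.Asm4

set_option autoImplicit false

/-! Assembly of project GS, fifth part: the exceptional set. -/

namespace Pool.Agent.TH612.GS

open Complex Filter Topology MeasureTheory Set
open Pool.Agent.TH612.CF
open Pool.Agent.W182.KO hiding ee SS_summable
open scoped ContDiff

noncomputable section

variable {k : ℕ}

/-- the exceptional set -/
def Bad (k : ℕ) (T lam : ℝ) : Set (Fin k ⊕ Fin k → ℝ) :=
  {γ | (∀ i, 0 ≤ γ i ∧ γ i ≤ T) ∧ ∃ S : ℝ, 0 ≤ S ∧ S ≤ T ∧ lam < ‖DD S γ‖}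

open Classical in
/-- the pieces of the exceptional set -/
lemma Bad_sub (hINV : S_INV) (hD : S_DIAG) (ψ : ℝ → ℝ) {θ C : ℝ} {B M₀ : ℕ} {T y : ℝ} {N J : ℕ}
    (P : Par k θ C B M₀ T y N J) {C7 : ℝ} (hC7 : 0 < C7)
    (h1 : ∀ v : ℝ, 1 ≤ |v| → |v| ≤ T → ‖riemannZeta (1 + I * v)‖ ≤ C7 * Real.log T)
    (hZ : (Fintype.card (Equiv.Perm (Fin k ⊕ Fin k)) : ℝ) * ZB k C7 T ≤ y) (hZ0 : 0 ≤ ZB k C7 T) :
    Bad k T (T / y ^ 2) ⊆ (Sep k T)ᶜ ∪ {γ | 1 / y ^ 4 < ‖SN N γ - SP ψ N γ‖} ∪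
      {γ | 1 / y ^ 4 < ‖SP ψ N γ - GM N γ 0‖} ∪ (Sep k T ∩ {γ | 1 / y ^ 4 < ‖GM N γ 0 - zr γ‖}) ∪
      (⋃ i ∈ Finset.range (J + 1), {γ | T / y ^ 4 < ‖A1 N (i * (T / J)) γ‖}) ∪
      (⋃ i ∈ Finset.range (J + 1), ⋃ π ∈ (Pk k)ᶜ, {γ | T / y ^ 8 < ‖IG (i * (T / J)) γ π‖}) ∪
      ⋃ i ∈ Finset.range J, {γ | T / y ^ 4 < ∫ t in (i * (T / J))..((i + 1 : ℕ) * (T / J)),
        ‖∏ j : Fin k, z (t + γ (Sum.inl j)) * (starRingEnd ℂ) (z (t + γ (Sum.inr j)))‖} := by
  intro γ hγ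
  by_contra hcon
  simp only [mem_union, not_or, mem_iUnion, mem_ofPred_eq, not_exists, not_lt, mem_compl_iff,
    not_not, mem_inter_iff, not_and] at hcon
  obtain ⟨⟨⟨⟨⟨⟨g1, g2⟩, g3⟩, g4⟩, g5⟩, g6⟩, g7⟩ := hcon
  obtain ⟨hcube, S, hS0, hST, hS⟩ := hγ
  have hT := P.hT
  have hT0 : 0 < T := by linarith
  have hy16 := P.hy16
  have hy0 : 0 < y := by linarith
  have hJ : (0:ℝ) < J := by have := P.hJ1; exact_mod_cast (by omega : 0 < J)
  have hTJ : 0 < T / J := by positivity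
  -- bound at the grid points
  have key1 : ∀ i ∈ Finset.range (J + 1), ‖DD (i * (T / J)) γ‖ ≤ 6 * (T / y ^ 4) := by
    intro i hi
    have hi' : (i:ℝ) ≤ J := by exact_mod_cast Nat.lt_succ_iff.1 (Finset.mem_range.1 hi)
    have hSi0 : 0 ≤ (i:ℝ) * (T / J) := by positivity
    have hSiT : (i:ℝ) * (T / J) ≤ T := by
      calc (i:ℝ) * (T / J) ≤ J * (T / J) := by gcongr
        _ = T := by field_simp
    have hN1 : 1 ≤ N := by have := P.hN2; omega
    refine (DD_le hINV hD ψ hN1 hSi0 hSiT hT hC7 h1 g1).trans ?_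
    have b1 := g5 i hi
    have b2 : 2 * (N : ℝ) ^ (3 * k) ≤ T / y ^ 4 := by
      have c1 := P.hN4
      have c2 := P.hyT
      have e : T = T ^ (1 / 2 : ℝ) * T ^ (1 / 2 : ℝ) := by
        rw [← Real.rpow_add hT0]; norm_num
      rw [le_div_iff₀ (by positivity)]
      have c3 : 2 * y ^ 4 ≤ T ^ (1 / 2 : ℝ) := by
        refine le_trans ?_ c2
        have c4 : 2 ≤ y ^ 36 := by
          have : y ≤ y ^ 36 := le_self_pow₀ (by linarith) (by norm_num)
          linarith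
        calc 2 * y ^ 4 ≤ y ^ 36 * y ^ 4 := by gcongr
          _ = y ^ 40 := by ring
      have hTh : 0 < T ^ (1 / 2 : ℝ) := by positivity
      calc 2 * (N:ℝ) ^ (3 * k) * y ^ 4 = (N:ℝ) ^ (3 * k) * (2 * y ^ 4) := by ring
        _ ≤ T ^ (1 / 2 : ℝ) * T ^ (1 / 2 : ℝ) := by gcongr
        _ = T := e.symm
    have b3 : T * ‖SN N γ - SP ψ N γ‖ ≤ T / y ^ 4 := by
      calc _ ≤ T * (1 / y ^ 4) := by gcongr
        _ = _ := by ring
    have b4 : T * ‖SP ψ N γ - GM N γ 0‖ ≤ T / y ^ 4 := by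
      calc _ ≤ T * (1 / y ^ 4) := by gcongr
        _ = _ := by ring
    have b5 : T * ‖GM N γ 0 - zr γ‖ ≤ T / y ^ 4 := by
      have := g4 g1
      calc _ ≤ T * (1 / y ^ 4) := by gcongr
        _ = _ := by ring
    have b6 : ZB k C7 T * ∑ π ∈ (Pk k)ᶜ, ‖IG (i * (T / J)) γ π‖ ≤ T / y ^ 4 := by
      have c1 : ∑ π ∈ (Pk k)ᶜ, ‖IG (i * (T / J)) γ π‖ ≤
          (Fintype.card (Equiv.Perm (Fin k ⊕ Fin k)) : ℝ) * (T / y ^ 8) := by
        calc _ ≤ ∑ _π ∈ (Pk k)ᶜ, T / y ^ 8 := Finset.sum_le_sum fun π hπ => g6 i hi π hπ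
          _ = ((Pk k)ᶜ.card : ℝ) * (T / y ^ 8) := by rw [Finset.sum_const, nsmul_eq_mul]
          _ ≤ _ := by
              gcongr
              exact_mod_cast Finset.card_le_univ _
      calc _ ≤ ZB k C7 T * ((Fintype.card (Equiv.Perm (Fin k ⊕ Fin k)) : ℝ) * (T / y ^ 8)) := by gcongr
        _ = ((Fintype.card (Equiv.Perm (Fin k ⊕ Fin k)) : ℝ) * ZB k C7 T) * (T / y ^ 8) := by ring
        _ ≤ y * (T / y ^ 8) := by gcongr
        _ = T / y ^ 4 * (1 / y ^ 3) := by field_simp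
        _ ≤ T / y ^ 4 * 1 := by
            gcongr
            rw [div_le_one (by positivity)]
            exact one_le_pow₀ (by linarith)
        _ = _ := mul_one _
    linarith
  -- the nearest grid point
  set i : ℕ := ⌊S / (T / J)⌋₊ with hi
  have hiS : (i:ℝ) * (T / J) ≤ S := by
    have := Nat.floor_le (a := S / (T / J)) (by positivity)
    rwa [← hi, le_div_iff₀ hTJ] at this
  have hiS2 : S < ((i:ℝ) + 1) * (T / J) := by
    have := Nat.lt_floor_add_one (S / (T / J))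
    rwa [← hi, div_lt_iff₀ hTJ] at this
  have hiJ : i ≤ J := by
    have h2 : (i:ℝ) * (T / J) ≤ J * (T / J) := by
      refine (hiS.trans hST).trans (le_of_eq ?_)
      field_simp
    have h3 := le_of_mul_le_mul_right h2 hTJ
    exact_mod_cast h3
  have hfin : ‖DD S γ‖ ≤ T / y ^ 2 := by
    have k1 := key1 i (Finset.mem_range.2 (by omega))
    have hd := DD_diff (k := k) hiS hT hC7 h1 g1
    have k2 : (S - i * (T / J)) * (Fintype.card (Equiv.Perm (Fin k ⊕ Fin k)) * ZB k C7 T) ≤ T / y ^ 4 := by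
      have d1 : S - i * (T / J) ≤ T / J := by linarith
      have d2 : T / (J:ℝ) ≤ T / y ^ 16 := by
        have := P.hJl
        gcongr
      calc _ ≤ T / y ^ 16 * y := by
            refine mul_le_mul (d1.trans d2) hZ (by positivity) (by positivity)
        _ = T / y ^ 4 * (1 / y ^ 11) := by field_simp
        _ ≤ T / y ^ 4 * 1 := by
            gcongr
            rw [div_le_one (by positivity)]
            exact one_le_pow₀ (by linarith)
        _ = _ := mul_one _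
    have k3 : (∫ t in (i * (T / J))..S, ‖∏ j : Fin k, z (t + γ (Sum.inl j)) *
        (starRingEnd ℂ) (z (t + γ (Sum.inr j)))‖) ≤ T / y ^ 4 := by
      have hcn : Continuous fun t : ℝ => ‖∏ j : Fin k, z (t + γ (Sum.inl j)) *
          (starRingEnd ℂ) (z (t + γ (Sum.inr j)))‖ := by
        have := (Zg_cont γ).norm
        simpa only [Zg_fz] using this
      rcases lt_or_eq_of_le hiJ with hlt | heq
      · refine le_trans ?_ (g7 i (Finset.mem_range.2 hlt))
        refine intervalIntegral.integral_mono_interval le_rfl hiS ?_ ?_ (hcn.intervalIntegrable _ _)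
        · push_cast; exact hiS2.le
        · exact Eventually.of_forall fun t => norm_nonneg _
      · have e : (i:ℝ) * (T / J) = S := by
          refine le_antisymm hiS ?_
          rw [heq]
          refine hST.trans (le_of_eq ?_)
          field_simp
        rw [e, intervalIntegral.integral_same]
        positivity
    have k4 : ‖DD S γ‖ ≤ ‖DD (i * (T / J)) γ‖ + ‖DD S γ - DD (i * (T / J)) γ‖ := by
      have := norm_add_le (DD (i * (T / J)) γ) (DD S γ - DD (i * (T / J)) γ)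
      rwa [add_sub_cancel] at this
    have k5 : 8 * (T / y ^ 4) ≤ T / y ^ 2 := by
      have : T / y ^ 2 = (T / y ^ 4) * y ^ 2 := by field_simp
      rw [this, mul_comm]
      gcongr
      nlinarith
    linarith
  linarith

end

end Pool.Agent.TH612.GS
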