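import Pool.Agent.H27.G.R_seed8.TH612.GS.Stm

set_option autoImplicit false

/-! Project GS, two more statements. -/

namespace Pool.Agent.TH612.GS

open Complex Filter Topology MeasureTheory Set
open Pool.Agent.TH612.CF
open Pool.Agent.W182.KO hiding ee SS_summable

noncomputable section

/-- NS: almost all shift vectors are separated -/
def S_NS : Prop := ∀ (k : ℕ) (T : ℝ), 1 ≤ T →
  mP (Fin k ⊕ Fin k) T (Sep k T)ᶜ ≤ ENNReal.ofReal (8 * k ^ 2 * T ^ (2 * k - 1 / 2 : ℝ))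

/-- A4: mean square of the difference of the smoothed sum and `GM M γ 0` -/
def S_A4 : Prop := ∀ (k : ℕ) (ψ : ℝ → ℝ), Cut ψ → ∃ (C : ℝ) (M₀ : ℕ), 0 < C ∧ 2 ≤ M₀ ∧
  ∀ (T : ℝ) (M : ℕ), M₀ ≤ M → 1 ≤ T → 2 * (M : ℝ) ^ (3 * k ^ 2) ≤ T →
  ∫⁻ γ, ENNReal.ofReal (‖SP ψ M γ - GM M γ 0‖ ^ 2) ∂(mP (Fin k ⊕ Fin k) T) ≤
    ENNReal.ofReal (C * T ^ (2 * k) * (M : ℝ) ^ (-(1 / 8) : ℝ))

/-- Z1: the product of zeta values against the product of the short polynomials -/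
def S_Z1 : Prop := ∀ k : ℕ, ∃ C T₀ : ℝ, 0 < C ∧ 3 ≤ T₀ ∧ ∀ (T S : ℝ) (N : ℕ), T₀ ≤ T → 0 ≤ S → S ≤ T →
  1 ≤ N → (N : ℝ) ≤ T ^ (1 / 2 : ℝ) →
  ∫⁻ γ, ENNReal.ofReal (‖(∫ t in (0:ℝ)..S, ∏ j : Fin k, z (t + γ (Sum.inl j)) *
      (starRingEnd ℂ) (z (t + γ (Sum.inr j)))) -
    ∫ t in (0:ℝ)..S, ∏ j : Fin k, PN N (t + γ (Sum.inl j)) *
      (starRingEnd ℂ) (PN N (t + γ (Sum.inr j)))‖ ^ 2) ∂(mP (Fin k ⊕ Fin k) T) ≤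
    ENNReal.ofReal (C * Real.log T ^ (2 * k) * T ^ (2 * k + 2) / N)

/-- Z2: mean square of the product of zeta values over a short interval -/
def S_Z2 : Prop := ∀ k : ℕ, ∃ C T₀ : ℝ, 0 < C ∧ 3 ≤ T₀ ∧ ∀ (T A B : ℝ), T₀ ≤ T → 0 ≤ A → A ≤ B →
  B ≤ T →
  ∫⁻ γ, ENNReal.ofReal ((∫ t in A..B, ‖∏ j : Fin k, z (t + γ (Sum.inl j)) *
      (starRingEnd ℂ) (z (t + γ (Sum.inr j)))‖) ^ 2) ∂(mP (Fin k ⊕ Fin k) T) ≤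
    ENNReal.ofReal (C * (B - A) ^ 2 * Real.log T ^ (2 * k) * T ^ (2 * k))

end

end Pool.Agent.TH612.GS
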